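import Pool.Agent.H47.KS.Targets

/-!
# Rows AE, HOM, HOP of ksu_modules (`MP_90d669_co`)
-/

set_option autoImplicit false

namespace Pool.Agent.H32.KSU

open Finset Pool.Agent.H37.SP Pool.Agent.H47.KS

theorem pf_AE : T_AE := by
  intro N A f lo v x0 hf hv hpop
  have hmaps : ∀ a ∈ A, f a ∈ Finset.Ico lo (lo + v) := fun a ha => Finset.mem_Ico.mpr (hf a ha)
  have hcard : (Finset.Ico lo (lo + (v : ℤ))).card = v := by simp
  obtain ⟨z0, _, hz0⟩ := exists_lt_card_fiber_of_mul_lt_card_of_maps_to (s := A) (n := x0) hmaps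
    (by rw [hcard]; exact hv)
  refine ⟨z0, ?_⟩
  have h1 := card_le_mul_card_image_of_maps_to (s := A.filter fun a => f a ≠ z0)
    (t := Finset.Ico lo (lo + (v : ℤ))) (f := f) (fun a ha => hmaps a (mem_filter.mp ha).1) x0 (by
      intro z _
      by_cases hz : z = z0
      · subst hz
        have : ((A.filter fun a => f a ≠ z).filter fun a => f a = z) = ∅ := by
          rw [filter_eq_empty_iff]
          intro a ha
          exact (mem_filter.mp ha).2
        rw [this]
        exact Nat.zero_le _
      · have h2 := hpop z z0 hz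
        rw [not_and_or, not_le, not_le] at h2
        have h3 : ((A.filter fun a => f a ≠ z0).filter fun a => f a = z).card ≤
            (A.filter fun a => f a = z).card :=
          card_le_card (filter_subset_filter _ (filter_subset _ _))
        rcases h2 with h2 | h2
        · omega
        · omega)
  rw [hcard] at h1
  calc _ ≤ x0 * v := h1
    _ = v * x0 := mul_comm _ _

variable {N : ℕ} (G : SimpleGraph (Fin N))

/-- the exchange of one vertex -/
theorem delta (A B : Finset (Fin N)) (Φ : Fin N → ℤ) (f E : ℕ) (hf : 1 ≤ f)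
    (hfB : f + 1 ≤ B.card)
    (h : ∀ F ⊆ B, F.card = f → ∃ z : ℤ, (A.filter (fun a => dg G F a - Φ a ≠ z)).card ≤ E)
    (c c' : Fin N) (hc : c ∈ B) (hc' : c' ∈ B) :
    ∃ δ : ℤ, (A.filter (fun a => aa G a c' - aa G a c ≠ δ)).card ≤ 2 * E := by
  classical
  by_cases hcc : c = c'
  · refine ⟨0, ?_⟩
    subst hcc
    simp
  have h1 : f - 1 ≤ ((B.erase c).erase c').card := by
    rw [card_erase_of_mem (mem_erase.mpr ⟨Ne.symm hcc, hc'⟩), card_erase_of_mem hc]
    omega
  obtain ⟨F₀, hF₀, hF₀c⟩ := exists_subset_card_eq h1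
  have hcF : c ∉ F₀ := fun h' => by
    have := hF₀ h'
    rw [mem_erase, mem_erase] at this
    exact this.2.1 rfl
  have hc'F : c' ∉ F₀ := fun h' => by
    have := hF₀ h'
    rw [mem_erase] at this
    exact this.1 rfl
  have hF₀B : F₀ ⊆ B := hF₀.trans ((erase_subset _ _).trans (erase_subset _ _))
  obtain ⟨z, hz⟩ := h (insert c F₀) (insert_subset hc hF₀B) (by
    rw [card_insert_of_notMem hcF]
    omega)
  obtain ⟨z', hz'⟩ := h (insert c' F₀) (insert_subset hc' hF₀B) (by
    rw [card_insert_of_notMem hc'F]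
    omega)
  refine ⟨z' - z, ?_⟩
  have hsub : A.filter (fun a => aa G a c' - aa G a c ≠ z' - z) ⊆
      A.filter (fun a => dg G (insert c F₀) a - Φ a ≠ z) ∪
      A.filter (fun a => dg G (insert c' F₀) a - Φ a ≠ z') := by
    intro a ha
    rw [mem_filter] at ha
    rw [mem_union, mem_filter, mem_filter]
    by_contra hne
    rw [not_or, not_and, not_and, not_not, not_not] at hne
    have e1 := hne.1 ha.1
    have e2 := hne.2 ha.1
    rw [dg_insert G hcF] at e1
    rw [dg_insert G hc'F] at e2
    exact ha.2 (by linarith)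
  calc _ ≤ _ := card_le_card hsub
    _ ≤ _ := card_union_le _ _
    _ ≤ 2 * E := by omega

/-- the two cases -/
theorem cases (A B : Finset (Fin N)) (E u : ℕ) (c0 : Fin N) (hE : 2 * E ≤ u)
    (hA : 2 * u + 2 * E < A.card)
    (h : ∀ c ∈ B, ∃ δ : ℤ, (A.filter (fun a => aa G a c - aa G a c0 ≠ δ)).card ≤ 2 * E) :
    ((∀ c ∈ B, (A.filter (fun a => aa G a c ≠ aa G a c0)).card ≤ 2 * E) ∧
      u < (A.filter (fun a => aa G a c0 = 1)).card ∧
      u < (A.filter (fun a => aa G a c0 ≠ 1)).card) ∨
    ∃ A' ⊆ A, A.card ≤ A'.card + u ∧ ∃ s : Fin N → ℤ, (∀ x, s x = 0 ∨ s x = 1) ∧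
      ∀ c ∈ B, (A'.filter (fun a => aa G a c ≠ s c)).card ≤ 2 * E := by
  classical
  by_cases hcase : u < (A.filter (fun a => aa G a c0 = 1)).card ∧
      u < (A.filter (fun a => aa G a c0 ≠ 1)).card
  · left
    refine ⟨fun c hc => ?_, hcase⟩
    obtain ⟨δ, hδ⟩ := h c hc
    have hδ0 : δ = 0 := by
      by_contra hne
      rcases lt_trichotomy δ 0 with h1 | h1 | h1
      · -- `aa a c0 = 1` for almost all
        have hsub : A.filter (fun a => aa G a c0 ≠ 1) ⊆
            A.filter (fun a => aa G a c - aa G a c0 ≠ δ) := by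
          intro a ha
          rw [mem_filter] at ha ⊢
          refine ⟨ha.1, fun he => ?_⟩
          rcases aa_or G a c0 with e | e
          · have := aa_nonneg G a c
            omega
          · exact ha.2 e
        have := card_le_card hsub
        omega
      · exact hne h1
      · have hsub : A.filter (fun a => aa G a c0 = 1) ⊆
            A.filter (fun a => aa G a c - aa G a c0 ≠ δ) := by
          intro a ha
          rw [mem_filter] at ha ⊢
          refine ⟨ha.1, fun he => ?_⟩
          have := aa_le G a c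
          omega
        have := card_le_card hsub
        omega
    subst hδ0
    refine (card_le_card ?_).trans hδ
    intro a ha
    rw [mem_filter] at ha ⊢
    exact ⟨ha.1, fun he => ha.2 (by omega)⟩
  · right
    obtain ⟨s0, hs0, hs0c⟩ : ∃ s0 : ℤ, (s0 = 0 ∨ s0 = 1) ∧
        (A.filter (fun a => aa G a c0 ≠ s0)).card ≤ u := by
      rw [not_and_or, not_lt, not_lt] at hcase
      rcases hcase with h1 | h1
      · refine ⟨0, Or.inl rfl, (card_le_card ?_).trans h1⟩
        intro a ha
        rw [mem_filter] at ha ⊢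
        exact ⟨ha.1, (aa_or G a c0).resolve_left ha.2⟩
      · exact ⟨1, Or.inr rfl, h1⟩
    have hpart : (A.filter (fun a => aa G a c0 = s0)).card +
        (A.filter (fun a => ¬ aa G a c0 = s0)).card = A.card :=
      card_filter_add_card_filter_not _
    have hex : ∀ c ∈ B, ∃ t : ℤ, (t = 0 ∨ t = 1) ∧
        ((A.filter (fun a => aa G a c0 = s0)).filter (fun a => aa G a c ≠ t)).card ≤ 2 * E := by
      intro c hc
      obtain ⟨δ, hδ⟩ := h c hc
      have hsub : (A.filter (fun a => aa G a c0 = s0)).filter (fun a => aa G a c ≠ s0 + δ) ⊆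
          A.filter (fun a => aa G a c - aa G a c0 ≠ δ) := by
        intro a ha
        rw [mem_filter, mem_filter] at ha
        rw [mem_filter]
        refine ⟨ha.1.1, fun he => ha.2 ?_⟩
        rw [← ha.1.2]
        omega
      have hle := (card_le_card hsub).trans hδ
      refine ⟨s0 + δ, ?_, hle⟩
      have hne : ∃ a ∈ A.filter (fun a => aa G a c0 = s0), aa G a c = s0 + δ := by
        by_contra hcon
        push Not at hcon
        have : (A.filter (fun a => aa G a c0 = s0)).filter (fun a => aa G a c ≠ s0 + δ) =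
            A.filter (fun a => aa G a c0 = s0) := filter_true_of_mem hcon
        rw [this] at hle
        have hle2 : (A.filter (fun a => ¬ aa G a c0 = s0)).card ≤ u := hs0c
        omega
      obtain ⟨a, _, ha⟩ := hne
      rw [← ha]
      exact aa_or G a c
    refine ⟨A.filter (fun a => aa G a c0 = s0), filter_subset _ _, ?_,
      fun c => if hc : c ∈ B then (hex c hc).choose else 0, fun x => ?_, fun c hc => ?_⟩
    · have hle2 : (A.filter (fun a => ¬ aa G a c0 = s0)).card ≤ u := hs0c
      omega
    · by_cases hx : x ∈ B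
      · simp only [dif_pos hx]
        exact (hex x hx).choose_spec.1
      · simp only [dif_neg hx]
        simp
    · simp only [dif_pos hc]
      exact (hex c hc).choose_spec.2

/-- in the first case the degrees are multiples of an indicator function -/
theorem dg_almost (A B F : Finset (Fin N)) (E : ℕ) (c0 : Fin N) (hF : F ⊆ B)
    (h : ∀ c ∈ B, (A.filter (fun a => aa G a c ≠ aa G a c0)).card ≤ 2 * E) :
    (A.filter (fun a => dg G F a ≠ F.card * aa G a c0)).card ≤ F.card * (2 * E) := by
  classical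
  have hsub : A.filter (fun a => dg G F a ≠ F.card * aa G a c0) ⊆
      F.biUnion fun c => A.filter (fun a => aa G a c ≠ aa G a c0) := by
    intro a ha
    rw [mem_filter] at ha
    rw [mem_biUnion]
    by_contra hcon
    push Not at hcon
    apply ha.2
    unfold dg
    rw [sum_congr rfl (g := fun _ => aa G a c0) (fun c hc => by
      have := hcon c hc
      rw [mem_filter, not_and, not_not] at this
      exact this ha.1), sum_const, nsmul_eq_mul]
  refine (card_le_card hsub).trans (card_biUnion_le.trans ?_)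
  calc ∑ c ∈ F, (A.filter (fun a => aa G a c ≠ aa G a c0)).card ≤ ∑ _c ∈ F, 2 * E :=
        sum_le_sum fun c hc => h c (hF hc)
    _ = F.card * (2 * E) := by rw [sum_const, smul_eq_mul]

/-- a point outside an exceptional set -/
theorem pick (A X Y : Finset (Fin N)) (u : ℕ) (hX : X ⊆ A) (hXu : u < X.card)
    (hY : Y.card ≤ u) : ∃ a ∈ X, a ∉ Y := by
  by_contra hcon
  push Not at hcon
  have : X ⊆ Y := hcon
  have := card_le_card this
  omega

theorem pf_HOM : T_HOM := by
  classical
  intro N G A B f E u hf hfB hEu hA h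
  have h0 : ∀ F ⊆ B, F.card = f →
      ∃ z : ℤ, (A.filter (fun a => dg G F a - (0 : ℤ) ≠ z)).card ≤ E := by
    intro F hF hFc
    obtain ⟨z, hz⟩ := h F hF hFc
    refine ⟨z, ?_⟩
    simpa using hz
  have h2E : 2 * E ≤ u := by nlinarith
  obtain ⟨c0, hc0⟩ : B.Nonempty := card_pos.mp (by omega)
  rcases cases G A B E u c0 h2E hA (fun c hc =>
    delta G A B (fun _ => 0) f E hf hfB h0 c0 c hc0 hc) with ⟨h1, h2, h3⟩ | h1
  · exfalso
    obtain ⟨F, hF, hFc⟩ := exists_subset_card_eq (show f ≤ B.card by omega)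
    obtain ⟨z, hz⟩ := h F hF hFc
    have h4 := dg_almost G A B F E c0 hF h1
    rw [hFc] at h4
    set Y := A.filter (fun a => dg G F a ≠ (f : ℤ) * aa G a c0) ∪
      A.filter (fun a => dg G F a ≠ z) with hY
    have hYc : Y.card ≤ u := by
      refine (card_union_le _ _).trans ?_
      calc _ ≤ f * (2 * E) + E := by omega
        _ = (2 * f + 1) * E := by ring
        _ ≤ u := hEu
    obtain ⟨a, ha1, ha2⟩ := pick A _ Y u (filter_subset _ _) h2 hYc
    obtain ⟨b, hb1, hb2⟩ := pick A _ Y u (filter_subset _ _) h3 hYc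
    rw [mem_filter] at ha1 hb1
    rw [hY, mem_union, mem_filter, mem_filter, not_or, not_and, not_and, not_not, not_not]
      at ha2 hb2
    have a1 := ha2.1 ha1.1
    have a2 := ha2.2 ha1.1
    have b1 := hb2.1 hb1.1
    have b2 := hb2.2 hb1.1
    rw [ha1.2] at a1
    rw [(aa_or G b c0).resolve_right hb1.2] at b1
    rw [a1] at a2
    rw [b1] at b2
    have : (f : ℤ) = 0 := by linarith
    omega
  · exact h1

theorem pf_HOP : T_HOP := by
  classical
  intro N G A B Φ f f' E u hf hfB hf' hfB' hff hEu hA h h'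
  have h2E : 2 * E ≤ u := by nlinarith
  obtain ⟨c0, hc0⟩ : B.Nonempty := card_pos.mp (by omega)
  rcases cases G A B E u c0 h2E hA (fun c hc =>
    delta G A B Φ f E hf hfB h c0 c hc0 hc) with ⟨h1, h2, h3⟩ | h1
  · exfalso
    obtain ⟨F, hF, hFc⟩ := exists_subset_card_eq (show f ≤ B.card by omega)
    obtain ⟨F', hF', hFc'⟩ := exists_subset_card_eq (show f' ≤ B.card by omega)
    obtain ⟨z, hz⟩ := h F hF hFc
    obtain ⟨z', hz'⟩ := h' F' hF' hFc'
    have h4 := dg_almost G A B F E c0 hF h1
    have h4' := dg_almost G A B F' E c0 hF' h1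
    rw [hFc] at h4
    rw [hFc'] at h4'
    set Y := (A.filter (fun a => dg G F a ≠ (f : ℤ) * aa G a c0) ∪
      A.filter (fun a => dg G F a - Φ a ≠ z)) ∪
      (A.filter (fun a => dg G F' a ≠ (f' : ℤ) * aa G a c0) ∪
      A.filter (fun a => dg G F' a - Φ a ≠ z')) with hY
    have hYc : Y.card ≤ u := by
      refine (card_union_le _ _).trans ?_
      have e1 := card_union_le (A.filter (fun a => dg G F a ≠ (f : ℤ) * aa G a c0))
        (A.filter (fun a => dg G F a - Φ a ≠ z))
      have e2 := card_union_le (A.filter (fun a => dg G F' a ≠ (f' : ℤ) * aa G a c0))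
        (A.filter (fun a => dg G F' a - Φ a ≠ z'))
      calc _ ≤ (f * (2 * E) + E) + (f' * (2 * E) + E) := by omega
        _ = 2 * (f + f' + 1) * E := by ring
        _ ≤ u := hEu
    obtain ⟨a, ha1, ha2⟩ := pick A _ Y u (filter_subset _ _) h2 hYc
    obtain ⟨b, hb1, hb2⟩ := pick A _ Y u (filter_subset _ _) h3 hYc
    rw [mem_filter] at ha1 hb1
    simp only [hY, mem_union, mem_filter, not_or, not_and, not_not] at ha2 hb2
    obtain ⟨⟨a1, a2⟩, a3, a4⟩ := ha2
    obtain ⟨⟨b1, b2⟩, b3, b4⟩ := hb2
    have a1 := a1 ha1.1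
    have a2 := a2 ha1.1
    have a3 := a3 ha1.1
    have a4 := a4 ha1.1
    have b1 := b1 hb1.1
    have b2 := b2 hb1.1
    have b3 := b3 hb1.1
    have b4 := b4 hb1.1
    rw [ha1.2] at a1 a3
    rw [(aa_or G b c0).resolve_right hb1.2] at b1 b3
    apply hff
    have : (f : ℤ) = f' := by linarith
    exact_mod_cast this
  · exact h1

end Pool.Agent.H32.KSU
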